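import Pool.Agent.N52.ST.Stm

/-!
# Project ST (helper52): the level projections of the pieces
-/

set_option autoImplicit false

namespace Pool.Agent.N286.ST

open Matrix Finset
open scoped ComplexOrder
open Pool.Agent.W661.RC Pool.Agent.W683.RC Pool.Agent.N303.KQ Pool.Agent.N52.NH Pool.Agent.N52.ST

noncomputable section

variable {d : ℕ}

/-- the sum of orthogonal projections -/
lemma sum_isPr {κ : Type*} [DecidableEq κ] (P : κ → Mt d) (hP : ∀ k, IsPr (P k))
    (h0 : ∀ k l, k ≠ l → P k * P l = 0) (s : Finset κ) : IsPr (∑ k ∈ s, P k) := by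
  induction s using Finset.induction_on with
  | empty => simpa using pr_zero
  | insert a s ha ih =>
    rw [Finset.sum_insert ha]
    refine pr_add (hP a) ih ?_
    rw [Finset.mul_sum]
    refine Finset.sum_eq_zero fun k hk => h0 a k ?_
    rintro rfl
    exact ha hk

lemma hs_pr_tr {p : Mt d} (hp : IsPr p) (x : Mt d) : hs (p * x) = tr (xᴴ * p * x) := by
  rw [hs_eq_tr, Matrix.conjTranspose_mul, hp.1]
  congr 1
  calc xᴴ * p * (p * x) = xᴴ * (p * p) * x := by simp only [Matrix.mul_assoc]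
    _ = _ := by rw [hp.2]

lemma hs_sum_left {κ : Type*} [DecidableEq κ] (P : κ → Mt d) (hP : ∀ k, IsPr (P k))
    (h0 : ∀ k l, k ≠ l → P k * P l = 0) (s : Finset κ) (x : Mt d) :
    hs ((∑ k ∈ s, P k) * x) = ∑ k ∈ s, hs (P k * x) := by
  rw [hs_pr_tr (sum_isPr P hP h0 s)]
  simp only [hs_pr_tr (hP _)]
  rw [← tr_sum, ← Matrix.sum_mul, ← Matrix.mul_sum]

lemma hs_sum_right {κ : Type*} [DecidableEq κ] (P : κ → Mt d) (hP : ∀ k, IsPr (P k))
    (h0 : ∀ k l, k ≠ l → P k * P l = 0) (s : Finset κ) (x : Mt d) :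
    hs (x * ∑ k ∈ s, P k) = ∑ k ∈ s, hs (x * P k) := by
  have h1 := hs_sum_left P hP h0 s xᴴ
  have h2 : ∀ p : Mt d, IsPr p → hs (p * xᴴ) = hs (x * p) := by
    intro p hp
    rw [← hs_conjTranspose, Matrix.conjTranspose_mul, Matrix.conjTranspose_conjTranspose, hp.1]
  rw [h2 _ (sum_isPr P hP h0 s)] at h1
  rw [h1]
  exact sum_congr rfl fun k _ => h2 _ (hP k)

/-- products of two sums of central projections -/
lemma hs_two {κ : Type*} [DecidableEq κ] (P : κ → Mt d) (hP : ∀ k, IsPr (P k))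
    (h0 : ∀ k l, k ≠ l → P k * P l = 0) (s t : Finset κ) (u a : Mt d)
    (ha : ∀ k, P k * a = a * P k) :
    hs ((∑ k ∈ s, P k) * u * (∑ k ∈ t, P k) * a) = ∑ k ∈ s, ∑ l ∈ t, hs (P k * u * P l * a) := by
  have h1 : (∑ k ∈ t, P k) * a = a * ∑ k ∈ t, P k := by
    rw [Finset.sum_mul, Finset.mul_sum]
    exact sum_congr rfl fun k _ => ha k
  have h2 : (∑ k ∈ s, P k) * u * (∑ k ∈ t, P k) * a =
      (∑ k ∈ s, P k) * (u * a * ∑ k ∈ t, P k) := by
    simp only [Matrix.mul_assoc] at h1 ⊢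
    rw [h1]
  rw [h2, hs_sum_left P hP h0]
  refine sum_congr rfl fun k _ => ?_
  rw [← Matrix.mul_assoc, hs_sum_right P hP h0]
  refine sum_congr rfl fun l _ => ?_
  congr 1
  simp only [Matrix.mul_assoc]
  rw [ha l]

lemma hs_commutator_le {Z : Mt d} (hZ : IsPr Z) (x : Mt d) : hs (Z * x - x * Z) ≤ 4 * hs x := by
  have h1 := Pool.Agent.W683.RC.hs_sub_le (Z * x) (x * Z)
  have h2 := hs_pr_mul_le_self hZ x
  have h3 := hs_mul_pr_le_self hZ x
  linarith

theorem main (hK : S_KKZ) (hM : S_MLS) (hX : S_XX) : S_MON := by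
  classical
  intro d O Q u a ε e q t hu hq hε ht hN hD ha he hue
  obtain ⟨k1, k2, k3, k4, k5, k6⟩ := hK d O
  have zP : ∀ κ, IsPr (zc O κ) := fun κ => (k1 κ).1
  have hG : ∀ s, ZG O s = ∑ κ ∈ @Finset.filter _ (fun κ => s < cc O κ)
      (Classical.decPred _) (cl O), zc O κ := fun s => k4 (fun κ => s < cc O κ)
  have hL : ∀ s, ZL O s = ∑ κ ∈ @Finset.filter _ (fun κ => cc O κ ≤ s)
      (Classical.decPred _) (cl O), zc O κ := fun s => k4 (fun κ => cc O κ ≤ s)
  have pG : ∀ s, IsPr (ZG O s) := fun s => by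
    rw [hG]
    exact sum_isPr _ zP k2 _
  have pL : ∀ s, IsPr (ZL O s) := fun s => by
    rw [hL]
    exact sum_isPr _ zP k2 _
  have hq0 : 0 < q := by linarith
  have e0 : 0 ≤ e := le_trans (sum_nonneg fun j _ => hs_nonneg _) he
  have huc : Le (uᴴ * u) 1 := by
    rw [hu]
    exact Le_refl _
  have aZ : ∀ (j : Q.I) (s : ℝ), ZG O s * a j = a j * ZG O s := fun j s => by
    rw [hG, Finset.sum_mul, Finset.mul_sum]
    exact sum_congr rfl fun κ _ => (k1 κ).2.2 _ (ha j)
  -- the masses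
  have hms : ms O u (fun κ' κ => q * cc O κ' ≤ cc O κ) ≤ q / (q - 1) * (ε * d) := by
    have h1 := hM d O u ε q hu hq hN
    have h2 : (1 - 1 / q) = (q - 1) / q := by
      field_simp
    rw [h2] at h1
    have h3 : 0 < q - 1 := by linarith
    have h4 : q / (q - 1) * ((q - 1) / q * ms O u (fun κ' κ => q * cc O κ' ≤ cc O κ)) =
        ms O u (fun κ' κ => q * cc O κ' ≤ cc O κ) := by
      field_simp
    rw [← h4]
    exact mul_le_mul_of_nonneg_left h1 (by positivity)
  -- part 1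
  have hmb : ∀ j, hs (ZL O (t j / q) * u * ZG O (t j) * a j) =
      mb O u (a j) (fun κ' κ => cc O κ' ≤ t j / q ∧ t j < cc O κ) := by
    intro j
    rw [hL, hG, hs_two (zc O) zP k2 _ _ u (a j) (fun κ => (k1 κ).2.2 _ (ha j))]
    unfold mb
    rw [Finset.sum_filter]
    refine sum_congr rfl fun κ' _ => ?_
    rw [Finset.sum_filter]
    by_cases h1 : cc O κ' ≤ t j / q
    · rw [if_pos h1]
      refine sum_congr rfl fun κ _ => ?_
      by_cases h2 : t j < cc O κ
      · rw [if_pos h2, if_pos ⟨h1, h2⟩]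
      · rw [if_neg h2, if_neg (fun h => h2 h.2)]
    · rw [if_neg h1]
      symm
      exact sum_eq_zero fun κ _ => if_neg (fun h => h1 h.1)
  have hx1 := (hX d O Q u a e (fun κ' κ => q * cc O κ' ≤ cc O κ)
    (fun j κ' κ => cc O κ' ≤ t j / q ∧ t j < cc O κ) hu ha he).1 (by
      rintro j κ' κ ⟨h1, h2⟩
      rw [le_div_iff₀ hq0] at h1
      linarith)
  have part1 : ∀ j, hs (ZL O (t j / q) * u * ZG O (t j) * pr Q j) ≤
      2 * mb O u (a j) (fun κ' κ => cc O κ' ≤ t j / q ∧ t j < cc O κ) +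
        2 * hs (pr Q j - a j) := by
    intro j
    rw [← hmb j]
    have h1 : ZL O (t j / q) * u * ZG O (t j) * pr Q j =
        ZL O (t j / q) * u * ZG O (t j) * a j +
          ZL O (t j / q) * u * ZG O (t j) * (pr Q j - a j) := by
      rw [← Matrix.mul_add]
      congr 1
      abel
    rw [h1]
    have h2 : hs (ZL O (t j / q) * u * ZG O (t j) * (pr Q j - a j)) ≤ hs (pr Q j - a j) := by
      rw [Matrix.mul_assoc, Matrix.mul_assoc]
      refine (hs_pr_mul_le_self (pL _) _).trans ?_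
      rw [hs_unit_mul hu]
      exact hs_pr_mul_le_self (pG _) _
    have h3 := hs_add_le (ZL O (t j / q) * u * ZG O (t j) * a j)
      (ZL O (t j / q) * u * ZG O (t j) * (pr Q j - a j))
    linarith
  -- part 2
  have part2 : ∀ j, hs ((1 - pO O) * u * ZG O (t j) * pr Q j) ≤
      2 * hs ((1 - pO O) * u * pr Q j) + 8 * hs (pr Q j - a j) := by
    intro j
    have h1 : (1 - pO O) * u * ZG O (t j) * pr Q j =
        (1 - pO O) * u * pr Q j * ZG O (t j) +
          (1 - pO O) * (u * (ZG O (t j) * (pr Q j - a j) - (pr Q j - a j) * ZG O (t j))) := by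
      have h2 : ZG O (t j) * (pr Q j - a j) - (pr Q j - a j) * ZG O (t j) =
          ZG O (t j) * pr Q j - pr Q j * ZG O (t j) := by
        rw [Matrix.mul_sub, Matrix.sub_mul, aZ j]
        abel
      rw [h2]
      simp only [Matrix.mul_sub, Matrix.mul_assoc]
      abel
    rw [h1]
    refine (hs_add_le _ _).trans ?_
    have h3 := hs_mul_pr_le_self (pG (t j)) ((1 - pO O) * u * pr Q j)
    have h4 : hs ((1 - pO O) * (u * (ZG O (t j) * (pr Q j - a j) -
        (pr Q j - a j) * ZG O (t j)))) ≤ 4 * hs (pr Q j - a j) := by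
      refine (hs_pr_mul_le_self (pr_compl pO_pr) _).trans ?_
      rw [hs_unit_mul hu]
      exact hs_commutator_le (pG _) _
    linarith
  have hsum2 : ∑ j, hs ((1 - pO O) * u * pr Q j) ≤ ε * d := by
    have h1 := sum_hs_pr_mul (O := Q) (((1 - pO O) * u)ᴴ)
    rw [hs_conjTranspose, hs_mul_unit hu, hs_compl] at h1
    refine le_trans (le_of_eq ?_) (h1.trans hD)
    refine sum_congr rfl fun j _ => ?_
    rw [← hs_conjTranspose, Matrix.conjTranspose_mul, (pr_isPr j).1]
  -- everything together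
  have hpt : ∀ j, hs ((1 - ZG O (t j / q)) * u * ZG O (t j) * pr Q j) ≤
      4 * mb O u (a j) (fun κ' κ => cc O κ' ≤ t j / q ∧ t j < cc O κ) +
        4 * hs ((1 - pO O) * u * pr Q j) + 20 * hs (pr Q j - a j) := by
    intro j
    have h1 : 1 - ZG O (t j / q) = ZL O (t j / q) + (1 - pO O) := by
      rw [← k5 (t j / q)]
      abel
    rw [h1, Matrix.add_mul, Matrix.add_mul, Matrix.add_mul]
    have h2 := hs_add_le (ZL O (t j / q) * u * ZG O (t j) * pr Q j)
      ((1 - pO O) * u * ZG O (t j) * pr Q j)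
    have h3 := part1 j
    have h4 := part2 j
    linarith
  have htot := Finset.sum_le_sum fun (j : Q.I) (_ : j ∈ (univ : Finset Q.I)) => hpt j
  rw [sum_add_distrib, sum_add_distrib, ← mul_sum, ← mul_sum, ← mul_sum] at htot
  have hqq : 1 ≤ q / (q - 1) := by
    rw [le_div_iff₀ (by linarith)]
    linarith
  have hεd : 0 ≤ ε * (d : ℝ) := by positivity
  have h5 : ε * (d : ℝ) ≤ q / (q - 1) * (ε * d) := by nlinarith
  have h6 : 100 * (q / (q - 1)) * (ε * d) = 100 * (q / (q - 1) * (ε * d)) := by ring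
  rw [h6]
  linarith

end

end Pool.Agent.N286.ST
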